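import Pool.Agent.W312.WT.Stm

/-!
# Project WT: first half of the decomposition theorem
-/

set_option autoImplicit false

namespace Pool.Agent.W61.WT

open Pool.Agent.W312.WT

theorem split_at (ts : List ℕ) (k : ℕ) (h : k < ts.length) :
    ∃ T', ts.drop k = ts.getD k 0 :: T' ∧ T'.length + k + 1 = ts.length := by
  refine ⟨ts.drop (k + 1), ?_, ?_⟩
  · rw [List.getD_eq_getElem _ _ h]
    exact List.drop_eq_getElem_cons h
  · rw [List.length_drop]
    omega

theorem proof_SDca : Pool.Agent.W312.WT.SDca := by
  intro hSwp x A R ts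
  induction hn : R.length using Nat.strong_induction_on generalizing A R with
  | _ n ih =>
    intro hw hlen hts
    by_cases hall : ∀ y ∈ R, max (ts.getD A.length 0) x.2.1 < y.2.1
    · exact ⟨A, R, List.Perm.refl _, hall, le_rfl⟩
    · push Not at hall
      obtain ⟨y, hy, hyd⟩ := hall
      obtain ⟨R₁, R₂, rfl⟩ := List.append_of_mem hy
      have hlen' : ts.length = A.length + (R₁.length + (R₂.length + 1) + 1) := by
        rw [hlen]
        simp only [List.length_append, List.length_cons]
      obtain ⟨T', hT', hTl⟩ := split_at ts A.length (by omega)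
      obtain ⟨T'', hT'', -⟩ := split_at T' R₁.length (by omega)
      set t₁ := ts.getD A.length 0 with ht₁
      set t₂ := T'.getD R₁.length 0 with ht₂
      have hle : t₁ ≤ t₂ := by
        have h1 : (t₁ :: T').Pairwise (· ≤ ·) := by
          rw [← hT']
          exact hts.sublist (List.drop_sublist _ _)
        refine (List.pairwise_cons.1 h1).1 t₂ ?_
        have h2 : t₂ ∈ T'.drop R₁.length := by
          rw [hT'']
          exact List.mem_cons_self
        exact List.mem_of_mem_drop h2
      have hcost : cz ((A ++ y :: R₁) ++ x :: R₂) ts ≤ cz (A ++ x :: (R₁ ++ y :: R₂)) ts := by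
        have e1 : (A ++ y :: R₁) ++ x :: R₂ = A ++ y :: (R₁ ++ x :: R₂) := by simp
        rw [e1, cz_append, cz_append _ A, hT', cz_cons, cz_cons, cz_append _ R₁, cz_append _ R₁,
          hT'', cz_cons, cz_cons]
        have h3 := hSwp x.1 y.1 x.2.1 y.2.1 t₁ t₂ (hw y hy) hle hyd
        simp only [tc]
        omega
      have hperm : ((A ++ y :: R₁) ++ x :: R₂).Perm (A ++ x :: (R₁ ++ y :: R₂)) := by
        have e1 : (A ++ y :: R₁) ++ x :: R₂ = A ++ y :: (R₁ ++ x :: R₂) := by simp
        rw [e1]
        refine List.Perm.append_left A ?_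
        have p1 : (y :: (R₁ ++ x :: R₂)).Perm (y :: (x :: (R₁ ++ R₂))) :=
          List.Perm.cons _ List.perm_middle
        have p2 : (x :: (R₁ ++ y :: R₂)).Perm (x :: (y :: (R₁ ++ R₂))) :=
          List.Perm.cons _ List.perm_middle
        exact p1.trans ((List.Perm.swap x y _).trans p2.symm)
      have hlt : R₂.length < n := by
        rw [← hn]
        simp only [List.length_append, List.length_cons]
        omega
      obtain ⟨A', R', hp, hR', hc⟩ := ih R₂.length hlt (A ++ y :: R₁) R₂ rfl
        (fun z hz => hw z (by simp [hz])) (by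
          rw [hlen]
          exact hperm.symm.length_eq) hts
      exact ⟨A', R', hp.trans hperm, hR', hc.trans hcost⟩

end Pool.Agent.W61.WT
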